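import Mathlib

/-!
# Simultaneous packing and covering constants: definitions and basic facts on `ℓ₁`
-/

namespace PackCover

/-- A set `D` is 2-separated if distinct points of `D` have distance at least `2`. -/
def TwoSep {X : Type*} [NormedAddCommGroup X] (D : Set X) : Prop :=
  ∀ d ∈ D, ∀ d' ∈ D, d ≠ d' → 2 ≤ ‖d - d'‖

/-- A set `D` is `ρ`-dense if every point of the space is within `ρ` of `D`. -/
def RhoDense {X : Type*} [NormedAddCommGroup X] (D : Set X) (ρ : ℝ) : Prop :=
  ∀ x : X, ∃ d ∈ D, ‖x - d‖ ≤ ρ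

/-- The simultaneous packing and covering constant `γ(X)`. -/
noncomputable def gam (X : Type*) [NormedAddCommGroup X] : ℝ :=
  sInf {ρ : ℝ | ∃ D : Set X, TwoSep D ∧ RhoDense D ρ}

/-- The lattice version `γ*(X)`, where `D` is an additive subgroup. -/
noncomputable def gamStar (X : Type*) [NormedAddCommGroup X] : ℝ :=
  sInf {ρ : ℝ | ∃ D : AddSubgroup X, TwoSep (D : Set X) ∧ RhoDense (D : Set X) ρ}

/-- The real Banach space `ℓ₁`. -/
abbrev L1 : Type := lp (fun _ : ℕ => ℝ) 1

/-- `c` times the `n`-th unit vector of `ℓ₁`. -/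
noncomputable def ev (n : ℕ) (c : ℝ) : L1 := lp.single 1 n c

theorem norm_ev (n : ℕ) (c : ℝ) : ‖ev n c‖ = |c| := by
  unfold ev
  rw [lp.norm_single (by norm_num)]
  rfl

theorem ev_self (n : ℕ) (c : ℝ) : (ev n c : L1) n = c := by
  unfold ev
  exact lp.single_apply_self (E := fun _ : ℕ => ℝ) 1 n c

theorem ev_ne (n m : ℕ) (c : ℝ) (h : m ≠ n) : (ev n c : L1) m = 0 := by
  unfold ev
  exact lp.single_apply_ne (E := fun _ : ℕ => ℝ) 1 n c h

theorem norm_split (w : L1) (n : ℕ) : ‖w‖ = |w n| + ‖w - ev n (w n)‖ := by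
  have h := lp.norm_sub_norm_compl_sub_single (p := 1) (E := fun _ : ℕ => ℝ)
    (by norm_num) w {n}
  simp only [ENNReal.toReal_one, Real.rpow_one, Finset.sum_singleton, Real.norm_eq_abs] at h
  unfold ev
  linarith

theorem norm_add_ev (w : L1) (n : ℕ) (c : ℝ) :
    ‖w + ev n c‖ = |w n + c| + ‖w - ev n (w n)‖ := by
  have h := norm_split (w + ev n c) n
  have h1 : (w + ev n c : L1) n = w n + c := by
    rw [lp.coeFn_add, Pi.add_apply, ev_self]
  rw [h1] at h
  have h2 : w + ev n c - ev n (w n + c) = w - ev n (w n) := by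
    have : ev n (w n + c) = ev n (w n) + ev n c := by
      unfold ev
      exact lp.single_add 1 n _ _
    rw [this]
    abel
  rw [h2] at h
  exact h

theorem norm_add_ev_ge (w : L1) (n : ℕ) (c : ℝ) :
    ‖w‖ + |c| - 2 * |w n| ≤ ‖w + ev n c‖ := by
  have h1 := norm_add_ev w n c
  have h2 := norm_split w n
  have h3 : |c| - |w n| ≤ |w n + c| := by
    have := abs_sub_abs_le_abs_sub c (-(w n))
    rw [abs_neg] at this
    have h4 : c - -(w n) = w n + c := by ring
    rwa [h4] at this
  linarith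

theorem norm_add_ev_eq (w : L1) (n : ℕ) (c : ℝ) (h : w n = 0) :
    ‖w + ev n c‖ = ‖w‖ + |c| := by
  have h1 := norm_add_ev w n c
  have h2 := norm_split w n
  rw [h] at h1 h2
  rw [h1, h2]
  simp
  ring

/-- coordinates of an element of `ℓ₁` tend to zero -/
theorem tendsto_coord (w : L1) : Filter.Tendsto (fun n => |w n|) Filter.atTop (nhds 0) := by
  have h := lp.hasSum_norm (p := 1) (E := fun _ : ℕ => ℝ) (by norm_num) w
  simp only [ENNReal.toReal_one, Real.rpow_one, Real.norm_eq_abs] at h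
  exact h.summable.tendsto_atTop_zero

end PackCover
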