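import Pool.Agent.PackCover.Defs

/-!
# A dense sequence of finitely supported elements of `ℓ₁`
-/

namespace PackCover

open Filter Topology

/-- the finitely supported rational vectors of `ℓ₁` -/
noncomputable def yq (p : Σ N : ℕ, (Fin N → ℚ)) : L1 := ∑ i : Fin p.1, ev i (p.2 i)

theorem yq_supp (p : Σ N : ℕ, (Fin N → ℚ)) (m : ℕ) (hm : p.1 ≤ m) : (yq p : L1) m = 0 := by
  unfold yq
  rw [lp.coeFn_sum, Finset.sum_apply]
  refine Finset.sum_eq_zero ?_
  intro i _
  exact ev_ne _ _ _ (by have := i.2; omega)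

theorem exists_yq (x : L1) (ε : ℝ) (hε : 0 < ε) : ∃ p, ‖x - yq p‖ ≤ ε := by
  have h1 : HasSum (fun i => ev i (x i)) x :=
    lp.hasSum_single (p := 1) (E := fun _ : ℕ => ℝ) (by norm_num) x
  have h2 := h1.tendsto_sum_nat
  rw [Metric.tendsto_atTop] at h2
  obtain ⟨N, hN⟩ := h2 (ε / 2) (by positivity)
  have hN' := hN N le_rfl
  rw [dist_eq_norm] at hN'
  have h3 : ∀ i : ℕ, ∃ q : ℚ, |x i - q| < ε / (2 * (N + 1)) := by
    intro i
    exact exists_rat_near (x i) (by positivity)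
  choose q hq using h3
  refine ⟨⟨N, fun i => q i⟩, ?_⟩
  have h4 : yq ⟨N, fun i => q i⟩ = ∑ i ∈ Finset.range N, ev i (q i) := by
    unfold yq
    exact (Finset.sum_range (fun i => ev i (q i : ℝ))).symm
  rw [h4]
  have h5 : x - ∑ i ∈ Finset.range N, ev i (q i)
      = -(∑ i ∈ Finset.range N, ev i (x i) - x)
        + ∑ i ∈ Finset.range N, (ev i (x i - q i)) := by
    have h6 : ∀ i : ℕ, ev i (x i - q i) = ev i (x i) - ev i (q i) := by
      intro i
      unfold ev
      exact lp.single_sub 1 i _ _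
    simp only [h6, Finset.sum_sub_distrib]
    abel
  rw [h5]
  refine (norm_add_le _ _).trans ?_
  rw [norm_neg]
  have h6 : ‖∑ i ∈ Finset.range N, (ev i (x i - q i))‖ ≤ ε / 2 := by
    refine (norm_sum_le _ _).trans ?_
    calc ∑ i ∈ Finset.range N, ‖ev i (x i - q i)‖
        ≤ ∑ i ∈ Finset.range N, ε / (2 * (N + 1)) := by
          refine Finset.sum_le_sum ?_
          intro i _
          rw [norm_ev]
          exact (hq i).le
      _ = N * (ε / (2 * (N + 1))) := by simp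
      _ ≤ ε / 2 := by
          rw [mul_div_assoc', div_le_div_iff₀ (by positivity) (by norm_num)]
          nlinarith
  linarith

theorem exists_dense_seq : ∃ y : ℕ → L1, (∀ n, ∃ N, ∀ m, N ≤ m → (y n : L1) m = 0) ∧
    ∀ x : L1, ∀ ε : ℝ, 0 < ε → ∃ n, ‖x - y n‖ ≤ ε := by
  obtain ⟨f, hf⟩ := exists_surjective_nat (Σ N : ℕ, (Fin N → ℚ))
  refine ⟨fun n => yq (f n), ?_, ?_⟩
  · intro n
    exact ⟨(f n).1, fun m hm => yq_supp _ m hm⟩
  · intro x ε hε
    obtain ⟨p, hp⟩ := exists_yq x ε hε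
    obtain ⟨n, rfl⟩ := hf p
    exact ⟨n, hp⟩

end PackCover
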