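import Pool.Agent.PackCover.Defs

/-!
# The lower bound `2/√3 ≤ γ(ℓ₁ ⊕₂ Y)` for every nonzero real inner product space `Y`
-/

namespace PackCover

open Filter Topology

variable {Y : Type*} [NormedAddCommGroup Y] [InnerProductSpace ℝ Y]

theorem tendsto_norm_add_ev (w : L1) (c : ℝ) :
    Tendsto (fun n => ‖w + ev n c‖) atTop (𝓝 (‖w‖ + |c|)) := by
  have h0 := tendsto_coord w
  have h1 : Tendsto (fun n => w n) atTop (𝓝 0) := by
    rw [tendsto_zero_iff_norm_tendsto_zero]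
    exact h0
  have h2 : (fun n => ‖w + ev n c‖) = fun n => |w n + c| + (‖w‖ - |w n|) := by
    funext n
    have h1 := norm_add_ev w n c
    have h2 := norm_split w n
    linarith
  rw [h2]
  have h3 : Tendsto (fun n => |w n + c| + (‖w‖ - |w n|)) atTop (𝓝 (|0 + c| + (‖w‖ - 0))) :=
    ((h1.add_const c).abs).add (tendsto_const_nhds.sub h0)
  have h4 : |0 + c| + (‖w‖ - 0) = ‖w‖ + |c| := by
    rw [zero_add]; ring
  rwa [h4] at h3

/-- the point `(x, y)` of `ℓ₁ ⊕₂ Y` -/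
def pt (x : L1) (y : Y) : WithLp 2 (L1 × Y) := WithLp.toLp 2 (x, y)

omit [InnerProductSpace ℝ Y] in
theorem norm_sq (p : WithLp 2 (L1 × Y)) : ‖p‖ ^ 2 = ‖p.fst‖ ^ 2 + ‖p.snd‖ ^ 2 :=
  WithLp.prod_norm_sq_eq_of_L2 p

theorem three_pts (a₁ a₂ a₃ : ℝ) (v₁ v₂ v₃ : Y) (r : ℝ)
    (h₁ : a₁ ^ 2 + ‖v₁‖ ^ 2 ≤ r ^ 2) (h₂ : a₂ ^ 2 + ‖v₂‖ ^ 2 ≤ r ^ 2)
    (h₃ : a₃ ^ 2 + ‖v₃‖ ^ 2 ≤ r ^ 2)
    (h12 : 4 ≤ (a₁ - a₂) ^ 2 + ‖v₁ - v₂‖ ^ 2)
    (h13 : 4 ≤ (a₁ - a₃) ^ 2 + ‖v₁ - v₃‖ ^ 2)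
    (h23 : 4 ≤ (a₂ - a₃) ^ 2 + ‖v₂ - v₃‖ ^ 2) : 4 ≤ 3 * r ^ 2 := by
  have e12 := norm_sub_sq_real v₁ v₂
  have e13 := norm_sub_sq_real v₁ v₃
  have e23 := norm_sub_sq_real v₂ v₃
  have es : ‖v₁ + v₂ + v₃‖ ^ 2 = ‖v₁‖ ^ 2 + ‖v₂‖ ^ 2 + ‖v₃‖ ^ 2
      + 2 * inner ℝ v₁ v₂ + 2 * inner ℝ v₁ v₃ + 2 * inner ℝ v₂ v₃ := by
    rw [norm_add_sq_real, norm_add_sq_real, inner_add_left]
    ring
  have hs : 0 ≤ ‖v₁ + v₂ + v₃‖ ^ 2 := sq_nonneg _
  nlinarith [sq_nonneg (a₁ + a₂ + a₃)]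

/-- the geometric core of the lower bound -/
theorem core (D : Set (WithLp 2 (L1 × Y))) (hD : TwoSep D) (O L T : WithLp 2 (L1 × Y))
    (hO : O ∈ D) (hL : L ∈ D) (hT : T ∈ D) (hLO : L ≠ O) (hTO : T ≠ O) (hTL : T ≠ L)
    (n : ℕ) (c : ℝ) (v : Y) (r : ℝ) (hc : 0 ≤ c)
    (hcv : c ^ 2 + ‖v‖ ^ 2 ≤ r ^ 2)
    (hL' : (‖O.fst - L.fst‖ + c) ^ 2 + ‖O.snd + v - L.snd‖ ^ 2 ≤ r ^ 2)
    (hT' : ‖O + pt (ev n c) v - T‖ ≤ r) : 4 ≤ 3 * r ^ 2 := by
  have dLO := hD L hL O hO hLO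
  have dTO := hD T hT O hO hTO
  have dTL := hD T hT L hL hTL
  have sLO : 4 ≤ ‖L.fst - O.fst‖ ^ 2 + ‖L.snd - O.snd‖ ^ 2 := by
    have := norm_sq (L - O)
    rw [WithLp.sub_fst, WithLp.sub_snd] at this
    nlinarith
  have sTO : 4 ≤ ‖T.fst - O.fst‖ ^ 2 + ‖T.snd - O.snd‖ ^ 2 := by
    have := norm_sq (T - O)
    rw [WithLp.sub_fst, WithLp.sub_snd] at this
    nlinarith
  have sTL : 4 ≤ ‖T.fst - L.fst‖ ^ 2 + ‖T.snd - L.snd‖ ^ 2 := by
    have := norm_sq (T - L)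
    rw [WithLp.sub_fst, WithLp.sub_snd] at this
    nlinarith
  have sT : ‖O.fst + ev n c - T.fst‖ ^ 2 + ‖O.snd + v - T.snd‖ ^ 2 ≤ r ^ 2 := by
    have := norm_sq (O + pt (ev n c) v - T)
    rw [WithLp.sub_fst, WithLp.sub_snd, WithLp.add_fst, WithLp.add_snd] at this
    have h1 : (pt (ev n c) v : WithLp 2 (L1 × Y)).fst = ev n c := rfl
    have h2 : (pt (ev n c) v : WithLp 2 (L1 × Y)).snd = v := rfl
    rw [h1, h2] at this
    rw [← this]
    exact pow_le_pow_left₀ (norm_nonneg _) hT' 2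
  have hev : ‖ev n c‖ = c := by rw [norm_ev, abs_of_nonneg hc]
  refine three_pts (-c) (-(‖O.fst - L.fst‖ + c)) (‖O.fst + ev n c - T.fst‖)
    (-v) (-(O.snd + v - L.snd)) (-(O.snd + v - T.snd)) r ?_ ?_ ?_ ?_ ?_ ?_
  · rw [norm_neg]; linarith [neg_sq c]
  · rw [norm_neg, neg_sq]; exact hL'
  · rw [norm_neg]; exact sT
  · have h1 : (-c - -(‖O.fst - L.fst‖ + c)) = ‖L.fst - O.fst‖ := by
      rw [norm_sub_rev L.fst O.fst]; ring
    have h2 : -v - -(O.snd + v - L.snd) = -(L.snd - O.snd) := by abel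
    rw [h1, h2, norm_neg]
    exact sLO
  · have h2 : -v - -(O.snd + v - T.snd) = -(T.snd - O.snd) := by abel
    rw [h2, norm_neg]
    have h3 : ‖T.fst - O.fst‖ ≤ ‖O.fst + ev n c - T.fst‖ + c := by
      have h4 : T.fst - O.fst = -(O.fst + ev n c - T.fst) + ev n c := by abel
      rw [h4]
      refine (norm_add_le _ _).trans ?_
      rw [norm_neg, hev]
    have h5 : ‖T.fst - O.fst‖ ^ 2 ≤ (‖O.fst + ev n c - T.fst‖ + c) ^ 2 :=
      pow_le_pow_left₀ (norm_nonneg _) h3 2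
    have h6 : (-c - ‖O.fst + ev n c - T.fst‖) ^ 2 = (‖O.fst + ev n c - T.fst‖ + c) ^ 2 := by
      ring
    rw [h6]
    linarith
  · have h2 : -(O.snd + v - L.snd) - -(O.snd + v - T.snd) = -(T.snd - L.snd) := by abel
    rw [h2, norm_neg]
    have h3 : ‖T.fst - L.fst‖ ≤ ‖O.fst + ev n c - T.fst‖ + (‖O.fst - L.fst‖ + c) := by
      have h4 : T.fst - L.fst = -(O.fst + ev n c - T.fst) + ((O.fst - L.fst) + ev n c) := by
        abel
      rw [h4]
      refine (norm_add_le _ _).trans ?_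
      rw [norm_neg]
      have := norm_add_le (O.fst - L.fst) (ev n c)
      rw [hev] at this
      linarith
    have h5 : ‖T.fst - L.fst‖ ^ 2
        ≤ (‖O.fst + ev n c - T.fst‖ + (‖O.fst - L.fst‖ + c)) ^ 2 :=
      pow_le_pow_left₀ (norm_nonneg _) h3 2
    have h6 : (-(‖O.fst - L.fst‖ + c) - ‖O.fst + ev n c - T.fst‖) ^ 2
        = (‖O.fst + ev n c - T.fst‖ + (‖O.fst - L.fst‖ + c)) ^ 2 := by
      ring
    rw [h6]
    linarith

theorem exists_switch (P : ℕ → Prop) (M : ℕ) (h0 : ¬ P 0) (hM : P M) :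
    ∃ j, j < M ∧ ¬ P j ∧ P (j + 1) := by
  classical
  by_contra hcon
  push Not at hcon
  have : ∀ j, j ≤ M → ¬ P j := by
    intro j
    induction j with
    | zero => intro _; exact h0
    | succ k ih => intro hk; exact hcon k (by omega) (ih (by omega))
  exact this M le_rfl hM

theorem norm_pt_le (x : L1) (y : Y) : ‖pt x y‖ ≤ ‖x‖ + ‖y‖ := by
  have h := norm_sq (pt x y)
  have h1 : (pt x y : WithLp 2 (L1 × Y)).fst = x := rfl
  have h2 : (pt x y : WithLp 2 (L1 × Y)).snd = y := rfl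
  rw [h1, h2] at h
  refine abs_le_of_sq_le_sq' ?_ (by positivity) |>.2
  nlinarith [norm_nonneg x, norm_nonneg y]

/-- distance of `O + (c e_n, v)` to a point `d`, as `n → ∞` -/
theorem tendsto_dist (O d : WithLp 2 (L1 × Y)) (c : ℝ) (v : Y) (hc : 0 ≤ c) :
    Tendsto (fun n => ‖O + pt (ev n c) v - d‖ ^ 2) atTop
      (𝓝 ((‖O.fst - d.fst‖ + c) ^ 2 + ‖O.snd + v - d.snd‖ ^ 2)) := by
  have h1 : (fun n => ‖O + pt (ev n c) v - d‖ ^ 2)
      = fun n => ‖(O.fst - d.fst) + ev n c‖ ^ 2 + ‖O.snd + v - d.snd‖ ^ 2 := by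
    funext n
    rw [norm_sq, WithLp.sub_fst, WithLp.sub_snd, WithLp.add_fst, WithLp.add_snd]
    have h1 : (pt (ev n c) v : WithLp 2 (L1 × Y)).fst = ev n c := rfl
    have h2 : (pt (ev n c) v : WithLp 2 (L1 × Y)).snd = v := rfl
    rw [h1, h2]
    congr 3
    abel
  rw [h1]
  have h2 := tendsto_norm_add_ev (O.fst - d.fst) c
  rw [abs_of_nonneg hc] at h2
  exact (h2.pow 2).add_const _

theorem not_dense (D : Set (WithLp 2 (L1 × Y))) (hD : TwoSep D) (ρ r : ℝ)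
    (hρ : RhoDense D ρ) (hρr : ρ < r) (y₀ : Y) (hy₀ : ‖y₀‖ = 1) : 4 ≤ 3 * r ^ 2 := by
  obtain ⟨O, hO, hO'⟩ := hρ 0
  have hρ0 : 0 ≤ ρ := (norm_nonneg _).trans hO'
  have hr0 : 0 < r := lt_of_le_of_lt hρ0 hρr
  -- the points `Q n t`
  set Q : ℕ → ℝ → WithLp 2 (L1 × Y) := fun n t =>
    O + pt (ev n (r * Real.cos t)) ((r * Real.sin t) • y₀) with hQ
  have hQO : ∀ n t, ‖Q n t - O‖ = r := by
    intro n t
    have h1 : Q n t - O = pt (ev n (r * Real.cos t)) ((r * Real.sin t) • y₀) := by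
      simp [hQ]
    rw [h1]
    have h := norm_sq (pt (ev n (r * Real.cos t)) ((r * Real.sin t) • y₀))
    have h1 : (pt (ev n (r * Real.cos t)) ((r * Real.sin t) • y₀)
        : WithLp 2 (L1 × Y)).fst = ev n (r * Real.cos t) := rfl
    have h2 : (pt (ev n (r * Real.cos t)) ((r * Real.sin t) • y₀)
        : WithLp 2 (L1 × Y)).snd = (r * Real.sin t) • y₀ := rfl
    rw [h1, h2, norm_ev, norm_smul, hy₀, mul_one, sq_abs, Real.norm_eq_abs, sq_abs] at h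
    have h3 : (r * Real.cos t) ^ 2 + (r * Real.sin t) ^ 2 = r ^ 2 := by
      have := Real.sin_sq_add_cos_sq t
      nlinarith
    rw [h3] at h
    exact (pow_left_inj₀ (norm_nonneg _) hr0.le (by norm_num)).1 h
  set A : ℝ → Prop := fun t => ∃ d ∈ D, d ≠ O ∧ ∃ᶠ n in atTop, ‖Q n t - d‖ ≤ ρ with hA
  have hA1 : A (Real.pi / 2) := by
    obtain ⟨d, hd, hd'⟩ := hρ (Q 0 (Real.pi / 2))
    refine ⟨d, hd, ?_, ?_⟩
    · rintro rfl
      rw [hQO] at hd'
      linarith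
    · refine Filter.Eventually.frequently (Filter.Eventually.of_forall ?_)
      intro n
      have : Q n (Real.pi / 2) = Q 0 (Real.pi / 2) := by
        simp only [hQ, Real.cos_pi_div_two, mul_zero]
        unfold ev
        rw [lp.single_zero, lp.single_zero]
      rw [this]
      exact hd'
  have hA0 : ¬ A 0 := by
    rintro ⟨d, hd, -, hfreq⟩
    have hlim := tendsto_dist O d (r * Real.cos 0) ((r * Real.sin 0) • y₀)
      (by rw [Real.cos_zero]; linarith)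
    have h1 : ∃ᶠ n in atTop, ‖O + pt (ev n (r * Real.cos 0)) ((r * Real.sin 0) • y₀) - d‖ ^ 2
        ≤ ρ ^ 2 := by
      refine hfreq.mono ?_
      intro n hn
      exact pow_le_pow_left₀ (norm_nonneg _) hn 2
    have h2 := le_of_tendsto_of_frequently hlim h1
    rw [Real.cos_zero, mul_one] at h2
    nlinarith [norm_nonneg (O.fst - d.fst), sq_nonneg (‖O.snd + (r * Real.sin 0) • y₀ - d.snd‖)]
  -- choose the step
  obtain ⟨M, hM⟩ : ∃ M : ℕ, 2 * r * (Real.pi / 2) / (r - ρ) < M := exists_nat_gt _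
  have hM0 : (0 : ℝ) < M := by
    refine lt_of_le_of_lt ?_ hM
    have := Real.pi_pos
    have : 0 < r - ρ := by linarith
    positivity
  set η : ℝ := Real.pi / 2 / M with hη
  have hη1 : ρ + 2 * r * η < r := by
    have h1 : 0 < r - ρ := by linarith
    rw [div_lt_iff₀ h1] at hM
    have h2 : 2 * r * η = 2 * r * (Real.pi / 2) / M := by rw [hη]; ring
    rw [h2]
    have : 2 * r * (Real.pi / 2) / M < r - ρ := by
      rw [div_lt_iff₀ hM0]; linarith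
    linarith
  have hη0 : 0 ≤ η := by
    rw [hη]
    have := Real.pi_pos
    positivity
  obtain ⟨j, hjM, hj1, hj2⟩ := exists_switch (fun j => A (j * η)) M
    (by simpa using hA0) (by
      have : (M : ℝ) * η = Real.pi / 2 := by
        rw [hη]; field_simp
      show A ((M : ℝ) * η)
      rw [this]; exact hA1)
  set t₁ : ℝ := j * η with ht₁
  set t₂ : ℝ := ((j + 1 : ℕ) : ℝ) * η with ht₂
  have ht12 : t₂ = t₁ + η := by rw [ht₁, ht₂]; push_cast; ring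
  have hQQ : ∀ n, ‖Q n t₁ - Q n t₂‖ ≤ 2 * r * η := by
    intro n
    have h1 : Q n t₁ - Q n t₂ = pt (ev n (r * Real.cos t₁ - r * Real.cos t₂))
        ((r * Real.sin t₁ - r * Real.sin t₂) • y₀) := by
      have h3 : ev n (r * Real.cos t₁ - r * Real.cos t₂)
          = ev n (r * Real.cos t₁) - ev n (r * Real.cos t₂) := by
        unfold ev
        exact lp.single_sub 1 n _ _
      rw [h3, sub_smul]
      have h4 : ∀ (a b : L1) (u w : Y), pt (a - b) (u - w) = pt a u - pt b w := by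
        intro a b u w; rfl
      rw [h4]
      simp only [hQ]
      abel
    rw [h1]
    refine (norm_pt_le _ _).trans ?_
    rw [norm_ev, norm_smul, hy₀, mul_one, Real.norm_eq_abs, ← mul_sub, ← mul_sub, abs_mul,
      abs_mul, abs_of_pos hr0]
    have hc : |Real.cos t₁ - Real.cos t₂| ≤ η := by
      have := Real.abs_cos_sub_cos_le t₁ t₂
      have h5 : |t₁ - t₂| = η := by
        rw [ht12]
        have : t₁ - (t₁ + η) = -η := by ring
        rw [this, abs_neg, abs_of_nonneg hη0]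
      rwa [h5] at this
    have hs : |Real.sin t₁ - Real.sin t₂| ≤ η := by
      have := Real.abs_sin_sub_sin_le t₁ t₂
      have h5 : |t₁ - t₂| = η := by
        rw [ht12]
        have : t₁ - (t₁ + η) = -η := by ring
        rw [this, abs_neg, abs_of_nonneg hη0]
      rwa [h5] at this
    nlinarith
  have ht1range : 0 ≤ t₁ ∧ t₁ ≤ Real.pi / 2 := by
    constructor
    · rw [ht₁]; positivity
    · have : (M : ℝ) * η = Real.pi / 2 := by
        rw [hη]; field_simp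
      rw [ht₁, ← this]
      exact mul_le_mul_of_nonneg_right (by exact_mod_cast hjM.le) hη0
  have hc0 : 0 ≤ r * Real.cos t₁ :=
    mul_nonneg hr0.le (Real.cos_nonneg_of_neg_pi_div_two_le_of_le
      (by have := Real.pi_pos; linarith [ht1range.1]) ht1range.2)
  obtain ⟨L, hL, hLO, hLf⟩ := hj2
  have hLf1 : ∃ᶠ n in atTop, ‖Q n t₁ - L‖ ^ 2 ≤ r ^ 2 := by
    refine hLf.mono ?_
    intro n hn
    refine pow_le_pow_left₀ (norm_nonneg _) ?_ 2
    have h1 : Q n t₁ - L = (Q n t₁ - Q n t₂) + (Q n t₂ - L) := by abel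
    rw [h1]
    refine (norm_add_le _ _).trans ?_
    have := hQQ n
    linarith
  have hlimL := tendsto_dist O L (r * Real.cos t₁) ((r * Real.sin t₁) • y₀) hc0
  have hL' := le_of_tendsto_of_frequently hlimL hLf1
  -- pick `n` with `T ≠ L`
  have hev : ∃ n, ¬ ‖Q n t₁ - L‖ ≤ ρ := by
    by_contra hcon
    push Not at hcon
    exact hj1 ⟨L, hL, hLO, (Filter.Eventually.of_forall hcon).frequently⟩
  obtain ⟨n, hn⟩ := hev
  obtain ⟨T, hT, hT'⟩ := hρ (Q n t₁)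
  have hTL : T ≠ L := by rintro rfl; exact hn hT'
  have hTO : T ≠ O := by
    rintro rfl
    rw [hQO] at hT'
    linarith
  refine core D hD O L T hO hL hT hLO hTO hTL n (r * Real.cos t₁) ((r * Real.sin t₁) • y₀) r
    hc0 ?_ hL' (hT'.trans hρr.le)
  rw [norm_smul, hy₀, mul_one, Real.norm_eq_abs, sq_abs]
  have := Real.sin_sq_add_cos_sq t₁
  nlinarith

theorem lower_bound (D : Set (WithLp 2 (L1 × Y))) (hD : TwoSep D) (ρ : ℝ)
    (hρ : RhoDense D ρ) (y₀ : Y) (hy₀ : ‖y₀‖ = 1) : 2 / √3 ≤ ρ := by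
  obtain ⟨O, hO, hO'⟩ := hρ 0
  have hρ0 : 0 ≤ ρ := (norm_nonneg _).trans hO'
  refine le_of_forall_gt_imp_ge_of_dense ?_
  intro r hr
  have h := not_dense D hD ρ r hρ hr y₀ hy₀
  have hr0 : 0 < r := lt_of_le_of_lt hρ0 hr
  rw [div_le_iff₀ (by positivity)]
  have h3 : √3 ^ 2 = 3 := Real.sq_sqrt (by norm_num)
  refine abs_le_of_sq_le_sq' ?_ (by positivity) |>.2
  rw [mul_pow, h3]
  linarith

end PackCover
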