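import Pool.Agent.PackCover.DenseSeq

/-!
# The upper bound `γ*(ℓ₁ ⊕₂ ℝ) ≤ 2/√3`
-/

namespace PackCover

open Filter Topology

/-- admissible subgroups of `ℓ₁ × ℤ` -/
structure Adm (G : AddSubgroup (L1 × ℤ)) : Prop where
  two : ((0 : L1), (2 : ℤ)) ∈ G
  sep : ∀ g ∈ G, g ≠ 0 → 4 ≤ ‖g.1‖ ^ 2 + (g.2 : ℝ) ^ 2
  fin : ∃ N, ∀ n, N ≤ n → ∀ g ∈ G, (g.1 : L1) n = 0

/-- the class `b` is taken care of over `y` -/
def Near (G : AddSubgroup (L1 × ℤ)) (y : L1) (b : ℤ) : Prop :=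
  (∃ x : L1, (x, b) ∈ G ∧ ‖y - x‖ ≤ 1) ∨
    ∀ ε : ℝ, 0 < ε → ∃ x x' : L1, (x, b) ∈ G ∧ (x', 1 - b) ∈ G ∧ ‖y - x‖ + ‖y - x'‖ ≤ √3 + ε

theorem Near.mono {G H : AddSubgroup (L1 × ℤ)} (h : G ≤ H) {y : L1} {b : ℤ}
    (hn : Near G y b) : Near H y b := by
  rcases hn with ⟨x, hx, hx'⟩ | hn
  · exact Or.inl ⟨x, h hx, hx'⟩
  · refine Or.inr ?_
    intro ε hε
    obtain ⟨x, x', h1, h2, h3⟩ := hn ε hε
    exact ⟨x, x', h h1, h h2, h3⟩

theorem Adm.shift {G : AddSubgroup (L1 × ℤ)} (hG : ((0 : L1), (2 : ℤ)) ∈ G) {x : L1} {k l : ℤ}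
    (h : (x, k) ∈ G) (m : ℤ) (hl : l = k + 2 * m) : (x, l) ∈ G := by
  have h1 := G.add_mem h (G.zsmul_mem hG m)
  have h2 : ((x, k) : L1 × ℤ) + m • ((0 : L1), (2 : ℤ)) = (x, l) := by
    rw [hl]
    ext1
    · simp
    · simp; ring
  rwa [h2] at h1

theorem step (G : AddSubgroup (L1 × ℤ)) (hG : Adm G) (y : L1) (hy : ∃ N, ∀ m, N ≤ m → (y : L1) m = 0)
    (b : ℤ) : ∃ G', G ≤ G' ∧ Adm G' ∧ Near G' y b := by
  obtain ⟨N₁, hN₁⟩ := hG.fin
  obtain ⟨N₂, hN₂⟩ := hy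
  set N := max N₁ N₂ with hN
  have hGN : ∀ g ∈ G, (g.1 : L1) N = 0 := hN₁ N (le_max_left _ _)
  have hyN : (y : L1) N = 0 := hN₂ N (le_max_right _ _)
  set S : Set ℝ := {a | 1 ≤ a ∧ ∀ g ∈ G, 4 ≤ (‖y - g.1‖ + a) ^ 2 + ((b : ℝ) - g.2) ^ 2} with hS
  have hS2 : (2 : ℝ) ∈ S := by
    refine ⟨by norm_num, ?_⟩
    intro g _
    nlinarith [norm_nonneg (y - g.1), sq_nonneg ((b : ℝ) - g.2)]
  have hSb : BddBelow S := ⟨1, fun a ha => ha.1⟩
  have hSc : IsClosed S := by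
    have : S = Set.Ici 1 ∩ ⋂ g ∈ G, {a : ℝ | 4 ≤ (‖y - g.1‖ + a) ^ 2 + ((b : ℝ) - g.2) ^ 2} := by
      ext a
      simp [hS]
    rw [this]
    refine isClosed_Ici.inter (isClosed_biInter ?_)
    intro g _
    exact isClosed_le continuous_const (by fun_prop)
  have haS : sInf S ∈ S := hSc.csInf_mem ⟨2, hS2⟩ hSb
  set a := sInf S with ha
  have ha1 : 1 ≤ a := haS.1
  have hasep := haS.2
  set z : L1 × ℤ := (y + ev N a, b) with hz
  refine ⟨G ⊔ AddSubgroup.zmultiples z, le_sup_left, ⟨?_, ?_, ?_⟩, ?_⟩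
  · exact (le_sup_left : G ≤ _) hG.two
  · intro w hw hw0
    obtain ⟨g, hg, u, hu, rfl⟩ := AddSubgroup.mem_sup.1 hw
    obtain ⟨m, rfl⟩ := AddSubgroup.mem_zmultiples_iff.1 hu
    -- the first component
    have h1 : (g + m • z).1 = (g.1 + m • y) + ev N (m * a) := by
      rw [Prod.fst_add, Prod.smul_fst, hz]
      have h2 : m • (y + ev N a) = m • y + ev N (m * a) := by
        rw [smul_add]
        congr 1
        unfold ev
        have := map_zsmul (lp.singleAddMonoidHom (E := fun _ : ℕ => ℝ) 1 N) m a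
        simp only [zsmul_eq_mul] at this
        exact this.symm
      rw [h2, add_assoc]
    have h2 : (g.1 + m • y : L1) N = 0 := by
      have h3 : (g.1 + m • y : L1) N = (g.1 : L1) N + m • ((y : L1) N) := rfl
      rw [h3, hGN g hg, hyN]
      simp
    have h3 : ‖(g + m • z).1‖ = ‖g.1 + m • y‖ + |(m : ℝ)| * a := by
      rw [h1, norm_add_ev_eq _ _ _ h2, abs_mul, abs_of_nonneg (by linarith : (0 : ℝ) ≤ a)]
    have h4 : (((g + m • z).2 : ℤ) : ℝ) = g.2 + m * b := by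
      rw [Prod.snd_add, Prod.smul_snd, hz]
      simp
    rw [h3, h4]
    by_cases hm0 : m = 0
    · subst hm0
      have h5 : g ≠ 0 := by
        rintro rfl
        exact hw0 (by simp)
      have := hG.sep g hg h5
      simpa using this
    by_cases hm1 : |m| = 1
    · rcases (abs_eq (by norm_num : (0 : ℤ) ≤ 1)).1 hm1 with hm | hm
      · subst hm
        have h5 := hasep (-g) (G.neg_mem hg)
        have h6 : y - (-g).1 = g.1 + (1 : ℤ) • y := by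
          rw [Prod.fst_neg, one_smul]; abel
        rw [h6] at h5
        have h7 : ((b : ℝ) - ((-g).2 : ℤ)) = g.2 + b := by
          rw [Prod.snd_neg]; push_cast; ring
        rw [h7] at h5
        simpa using h5
      · subst hm
        have h5 := hasep g hg
        have h6 : g.1 + (-1 : ℤ) • y = -(y - g.1) := by
          rw [neg_smul, one_smul]; abel
        rw [h6, norm_neg]
        have h7 : ((g.2 : ℝ) + ((-1 : ℤ) : ℝ) * b) ^ 2 = ((b : ℝ) - g.2) ^ 2 := by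
          push_cast; ring
        rw [h7]
        simpa using h5
    · have h5 : (2 : ℝ) ≤ |(m : ℝ)| := by
        have h6 : 2 ≤ |m| := by
          have : 0 < |m| := abs_pos.2 hm0
          omega
        exact_mod_cast h6
      have h6 : 2 ≤ ‖g.1 + m • y‖ + |(m : ℝ)| * a := by
        nlinarith [norm_nonneg (g.1 + m • y)]
      nlinarith [sq_nonneg ((g.2 : ℝ) + m * b)]
  · refine ⟨N + 1, ?_⟩
    intro n hn w hw
    obtain ⟨g, hg, u, hu, rfl⟩ := AddSubgroup.mem_sup.1 hw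
    obtain ⟨m, rfl⟩ := AddSubgroup.mem_zmultiples_iff.1 hu
    have h1 : ((g + m • z).1 : L1) n = (g.1 : L1) n + m • ((y : L1) n + (ev N a : L1) n) := rfl
    rw [h1, hN₁ n (by omega) g hg, hN₂ n (by omega), ev_ne _ _ _ (by omega)]
    simp
  · -- the property `Near`
    have hzG : z ∈ G ⊔ AddSubgroup.zmultiples z :=
      (le_sup_right : AddSubgroup.zmultiples z ≤ _) (AddSubgroup.mem_zmultiples z)
    have hdz : ‖y - (y + ev N a)‖ = a := by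
      have : y - (y + ev N a) = -(ev N a) := by abel
      rw [this, norm_neg, norm_ev, abs_of_nonneg (by linarith)]
    by_cases ha' : a = 1
    · exact Or.inl ⟨y + ev N a, hzG, by rw [hdz, ha']⟩
    have ha2 : 1 < a := lt_of_le_of_ne ha1 (Ne.symm ha')
    by_cases hnear : ∃ x : L1, (x, b) ∈ G ⊔ AddSubgroup.zmultiples z ∧ ‖y - x‖ ≤ 1
    · exact Or.inl hnear
    refine Or.inr ?_
    intro ε hε
    set a' := max 1 (a - ε) with ha''
    have h1 : a' < a := max_lt ha2 (by linarith)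
    have h2 : 1 ≤ a' := le_max_left _ _
    have h3 : a' ∉ S := fun h => absurd (csInf_le hSb h) (not_le.2 h1)
    have h4 : ∃ g ∈ G, (‖y - g.1‖ + a') ^ 2 + ((b : ℝ) - g.2) ^ 2 < 4 := by
      by_contra hcon
      push Not at hcon
      exact h3 ⟨h2, hcon⟩
    obtain ⟨g, hg, hg4⟩ := h4
    have h5 : ((b : ℝ) - g.2) ^ 2 < 4 - 1 := by
      nlinarith [norm_nonneg (y - g.1)]
    have h6 : (b - g.2) ^ 2 < 3 := by
      have : (((b - g.2) ^ 2 : ℤ) : ℝ) < ((3 : ℤ) : ℝ) := by push_cast; linarith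
      exact_mod_cast this
    have h7 : b - g.2 = 0 ∨ b - g.2 = 1 ∨ b - g.2 = -1 := by
      have : -2 < b - g.2 := by nlinarith
      have : b - g.2 < 2 := by nlinarith
      omega
    have h8 : b - g.2 = 1 ∨ b - g.2 = -1 := by
      rcases h7 with h7 | h7
      · exfalso
        refine hnear ⟨g.1, ?_, ?_⟩
        · have : b = g.2 := by omega
          rw [this]
          exact (le_sup_left : G ≤ _) hg
        · have h9 : ((b : ℝ) - g.2) = 0 := by exact_mod_cast h7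
          rw [h9] at hg4
          nlinarith [norm_nonneg (y - g.1)]
      · exact h7
    have h9 : ((b : ℝ) - g.2) ^ 2 = 1 := by
      rcases h8 with h8 | h8
      · have h10 : ((b : ℝ) - g.2) = 1 := by exact_mod_cast h8
        rw [h10]; norm_num
      · have h10 : ((b : ℝ) - g.2) = -1 := by exact_mod_cast h8
        rw [h10]; norm_num
    have h10 : ‖y - g.1‖ + a' ≤ √3 := by
      refine Real.le_sqrt_of_sq_le ?_
      linarith
    refine ⟨y + ev N a, g.1, hzG, ?_, ?_⟩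
    · refine (le_sup_left : G ≤ _) ?_
      rcases h8 with h8 | h8
      · exact Adm.shift hG.two hg (1 - b) (by omega)
      · exact Adm.shift hG.two hg (-b) (by omega)
    · rw [hdz]
      have : a - ε ≤ a' := le_max_right _ _
      linarith

/-- both classes at once -/
theorem step2 (G : AddSubgroup (L1 × ℤ)) (hG : Adm G) (y : L1)
    (hy : ∃ N, ∀ m, N ≤ m → (y : L1) m = 0) :
    ∃ G', G ≤ G' ∧ Adm G' ∧ Near G' y 0 ∧ Near G' y 1 := by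
  obtain ⟨G₁, h1, h2, h3⟩ := step G hG y hy 0
  obtain ⟨G₂, h4, h5, h6⟩ := step G₁ h2 y hy 1
  exact ⟨G₂, h1.trans h4, h5, h3.mono h4, h6⟩

theorem adm_start : Adm (AddSubgroup.zmultiples ((0 : L1), (2 : ℤ))) := by
  refine ⟨AddSubgroup.mem_zmultiples _, ?_, ⟨0, ?_⟩⟩
  · intro g hg hg0
    obtain ⟨m, rfl⟩ := AddSubgroup.mem_zmultiples_iff.1 hg
    have hm : m ≠ 0 := by
      rintro rfl
      exact hg0 (by simp)
    have h1 : ((m • ((0 : L1), (2 : ℤ))).2 : ℤ) = m * 2 := by simp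
    have h2 : (m • ((0 : L1), (2 : ℤ))).1 = 0 := by simp
    rw [h1, h2]
    have h3 : (1 : ℝ) ≤ (m : ℝ) ^ 2 := by
      have : 1 ≤ m ^ 2 := by
        have : 0 < m ^ 2 := by positivity
        omega
      exact_mod_cast this
    push_cast
    nlinarith [norm_nonneg (0 : L1)]
  · intro n _ g hg
    obtain ⟨m, rfl⟩ := AddSubgroup.mem_zmultiples_iff.1 hg
    have h2 : (m • ((0 : L1), (2 : ℤ))).1 = 0 := by simp
    rw [h2]
    rfl

/-- the union of a chain of admissible subgroups -/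
theorem exists_limit : ∃ D : AddSubgroup (L1 × ℤ), ((0 : L1), (2 : ℤ)) ∈ D ∧
    (∀ g ∈ D, g ≠ 0 → 4 ≤ ‖g.1‖ ^ 2 + (g.2 : ℝ) ^ 2) ∧
    ∀ x : L1, ∀ ε : ℝ, 0 < ε → ∃ y : L1, ‖x - y‖ ≤ ε ∧ Near D y 0 ∧ Near D y 1 := by
  obtain ⟨y, hy1, hy2⟩ := exists_dense_seq
  have hstep : ∀ (n : ℕ) (G : {G : AddSubgroup (L1 × ℤ) // Adm G}),
      ∃ G' : {G : AddSubgroup (L1 × ℤ) // Adm G}, G.1 ≤ G'.1 ∧ Near G'.1 (y n) 0 ∧
        Near G'.1 (y n) 1 := by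
    intro n G
    obtain ⟨G', h1, h2, h3, h4⟩ := step2 G.1 G.2 (y n) (hy1 n)
    exact ⟨⟨G', h2⟩, h1, h3, h4⟩
  choose f hf using hstep
  set s : ℕ → {G : AddSubgroup (L1 × ℤ) // Adm G} := fun n =>
    Nat.rec ⟨_, adm_start⟩ (fun n G => f n G) n with hs
  have hs1 : ∀ n, s (n + 1) = f n (s n) := fun n => rfl
  have hmono : Monotone (fun n => (s n).1) := by
    refine monotone_nat_of_le_succ ?_
    intro n
    show (s n).1 ≤ (s (n + 1)).1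
    rw [hs1]
    exact (hf n (s n)).1
  have hmem : ∀ g, g ∈ (⨆ n, (s n).1) ↔ ∃ n, g ∈ (s n).1 := by
    intro g
    exact AddSubgroup.mem_iSup_of_directed hmono.directed_le
  refine ⟨⨆ n, (s n).1, ?_, ?_, ?_⟩
  · exact (hmem _).2 ⟨0, (s 0).2.two⟩
  · intro g hg hg0
    obtain ⟨n, hn⟩ := (hmem g).1 hg
    exact (s n).2.sep g hn hg0
  · intro x ε hε
    obtain ⟨n, hn⟩ := hy2 x ε hε
    have hle : (s (n + 1)).1 ≤ ⨆ n, (s n).1 := le_iSup (fun n => (s n).1) (n + 1)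
    rw [hs1] at hle
    exact ⟨y n, hn, ((hf n (s n)).2.1).mono hle, ((hf n (s n)).2.2).mono hle⟩

/-- pairs of consecutive layers -/
theorem near_pair (D : AddSubgroup (L1 × ℤ)) (h2 : ((0 : L1), (2 : ℤ)) ∈ D) (y : L1)
    (h0 : Near D y 0) (h1 : Near D y 1) (ε : ℝ) (hε : 0 < ε) (k : ℤ) :
    ∃ x x' : L1, (x, k) ∈ D ∧ (x', k + 1) ∈ D ∧
      ((‖y - x‖ ≤ 1 ∧ ‖y - x'‖ ≤ 1) ∨ ‖y - x‖ + ‖y - x'‖ ≤ √3 + ε) := by
  have key : ∃ x x' : L1, (x, 0) ∈ D ∧ (x', 1) ∈ D ∧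
      ((‖y - x‖ ≤ 1 ∧ ‖y - x'‖ ≤ 1) ∨ ‖y - x‖ + ‖y - x'‖ ≤ √3 + ε) := by
    rcases h0 with ⟨x, hx, hx'⟩ | h0
    · rcases h1 with ⟨x', hx'', hx'''⟩ | h1
      · exact ⟨x, x', hx, hx'', Or.inl ⟨hx', hx'''⟩⟩
      · obtain ⟨u, u', h3, h4, h5⟩ := h1 ε hε
        exact ⟨u', u, by simpa using h4, h3, Or.inr (by linarith)⟩
    · obtain ⟨u, u', h3, h4, h5⟩ := h0 ε hε
      exact ⟨u, u', h3, by simpa using h4, Or.inr h5⟩
  obtain ⟨x, x', hx, hx', h⟩ := key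
  rcases Int.even_or_odd' k with ⟨m, hm | hm⟩
  · exact ⟨x, x', Adm.shift h2 hx m (by omega), Adm.shift h2 hx' m (by omega), h⟩
  · refine ⟨x', x, Adm.shift h2 hx' m (by omega), Adm.shift h2 hx (m + 1) (by omega), ?_⟩
    rcases h with h | h
    · exact Or.inl ⟨h.2, h.1⟩
    · exact Or.inr (by linarith)

theorem sqrt3_facts : √3 ^ 2 = 3 ∧ 0 < √3 ∧ 2 / √3 = 2 * √3 / 3 := by
  have h : √3 ^ 2 = 3 := Real.sq_sqrt (by norm_num)
  have h' : 0 < √3 := by positivity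
  refine ⟨h, h', ?_⟩
  rw [div_eq_div_iff h'.ne' (by norm_num)]
  nlinarith

theorem fibre (D : AddSubgroup (L1 × ℤ)) (h2 : ((0 : L1), (2 : ℤ)) ∈ D) (y : L1)
    (h0 : Near D y 0) (h1 : Near D y 1) (ε : ℝ) (hε : 0 < ε) (t : ℝ) :
    ∃ g ∈ D, ‖y - g.1‖ ^ 2 + (t - g.2) ^ 2 ≤ (2 / √3 + ε) ^ 2 := by
  obtain ⟨hs, hs0, hs2⟩ := sqrt3_facts
  obtain ⟨x, x', hx, hx', h⟩ := near_pair D h2 y h0 h1 ε hε ⌊t⌋
  set τ := t - ⌊t⌋ with hτ
  have hτ0 : 0 ≤ τ := by have := Int.floor_le t; linarith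
  have hτ1 : τ ≤ 1 := by have := Int.lt_floor_add_one t; linarith
  set s := √3 with hsdef
  have hb : (2 / s + ε) ^ 2 = 4 / 3 + 2 * (2 * s / 3) * ε + ε ^ 2 := by
    rw [hs2]; nlinarith
  rw [hb]
  have hx'2 : t - ((⌊t⌋ + 1 : ℤ) : ℝ) = τ - 1 := by rw [hτ]; push_cast; ring
  rcases h with ⟨ha, hb⟩ | h
  · by_cases hτ2 : τ ≤ 1 / 2
    · refine ⟨(x, ⌊t⌋), hx, ?_⟩
      show ‖y - x‖ ^ 2 + τ ^ 2 ≤ _
      have : 0 ≤ 2 * (2 * s / 3) * ε := by positivity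
      nlinarith [norm_nonneg (y - x)]
    · refine ⟨(x', ⌊t⌋ + 1), hx', ?_⟩
      show ‖y - x'‖ ^ 2 + (t - ((⌊t⌋ + 1 : ℤ) : ℝ)) ^ 2 ≤ _
      rw [hx'2]
      have : 0 ≤ 2 * (2 * s / 3) * ε := by positivity
      nlinarith [norm_nonneg (y - x')]
  · -- `p ≤ (2-τ)/√3 + ε/2` or `q ≤ (1+τ)/√3 + ε/2`
    have main : ∀ (p τ : ℝ), 0 ≤ p → 0 ≤ τ → τ ≤ 1 → p ≤ (2 - τ) * s / 3 + ε / 2 →
        p ^ 2 + τ ^ 2 ≤ 4 / 3 + 2 * (2 * s / 3) * ε + ε ^ 2 := by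
      intro p τ hp hτ0 hτ1 hpτ
      have h3 : p ^ 2 ≤ ((2 - τ) * s / 3 + ε / 2) ^ 2 := pow_le_pow_left₀ hp hpτ 2
      have h4 : ((2 - τ) * s / 3 + ε / 2) ^ 2
          = (2 - τ) ^ 2 / 3 + (2 - τ) * s / 3 * ε + ε ^ 2 / 4 := by
        have : ((2 - τ) * s / 3 + ε / 2) ^ 2
          = (2 - τ) ^ 2 * s ^ 2 / 9 + (2 - τ) * s / 3 * ε + ε ^ 2 / 4 := by ring
        rw [this, hs]; ring
      have h5 : (2 - τ) * s / 3 * ε ≤ 2 * s / 3 * ε := by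
        have : 0 ≤ τ * s / 3 * ε := by positivity
        nlinarith
      have h6 : 0 ≤ 2 * s / 3 * ε := by positivity
      nlinarith
    by_cases hp : ‖y - x‖ ≤ (2 - τ) * s / 3 + ε / 2
    · refine ⟨(x, ⌊t⌋), hx, ?_⟩
      exact main _ _ (norm_nonneg _) hτ0 hτ1 hp
    · push Not at hp
      refine ⟨(x', ⌊t⌋ + 1), hx', ?_⟩
      show ‖y - x'‖ ^ 2 + (t - ((⌊t⌋ + 1 : ℤ) : ℝ)) ^ 2 ≤ _
      rw [hx'2]
      have h3 := main (‖y - x'‖) (1 - τ) (norm_nonneg _) (by linarith) (by linarith)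
        (by nlinarith)
      have h4 : (τ - 1) ^ 2 = (1 - τ) ^ 2 := by ring
      rw [h4]
      exact h3

/-- the map `ℓ₁ × ℤ → ℓ₁ ⊕₂ ℝ` -/
noncomputable def emb : L1 × ℤ →+ WithLp 2 (L1 × ℝ) where
  toFun g := WithLp.toLp 2 (g.1, (g.2 : ℝ))
  map_zero' := by
    show WithLp.toLp 2 ((0 : L1), ((0 : ℤ) : ℝ)) = 0
    rw [Int.cast_zero]; rfl
  map_add' g h := by
    show WithLp.toLp 2 (g.1 + h.1, ((g.2 + h.2 : ℤ) : ℝ)) = _
    rw [Int.cast_add]; rfl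

theorem norm_emb_sq (g : L1 × ℤ) : ‖emb g‖ ^ 2 = ‖g.1‖ ^ 2 + (g.2 : ℝ) ^ 2 := by
  have h := WithLp.prod_norm_sq_eq_of_L2 (emb g)
  have h1 : (emb g).fst = g.1 := rfl
  have h2 : (emb g).snd = (g.2 : ℝ) := rfl
  rw [h1, h2, Real.norm_eq_abs, sq_abs] at h
  exact h

theorem upper_bound (ε : ℝ) (hε : 0 < ε) : ∃ D : AddSubgroup (WithLp 2 (L1 × ℝ)),
    TwoSep (D : Set (WithLp 2 (L1 × ℝ))) ∧ RhoDense (D : Set (WithLp 2 (L1 × ℝ))) (2 / √3 + ε) := by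
  obtain ⟨D, h2, hsep, hnear⟩ := exists_limit
  refine ⟨D.map emb, ?_, ?_⟩
  · intro d hd d' hd' hne
    obtain ⟨g, hg, rfl⟩ := AddSubgroup.mem_map.1 hd
    obtain ⟨g', hg', rfl⟩ := AddSubgroup.mem_map.1 hd'
    have h3 : g - g' ≠ 0 := by
      intro h
      exact hne (by rw [sub_eq_zero.1 h])
    have h4 := hsep (g - g') (D.sub_mem hg hg') h3
    rw [← norm_emb_sq, map_sub] at h4
    nlinarith [norm_nonneg (emb g - emb g')]
  · intro p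
    obtain ⟨y, hy, hy0, hy1⟩ := hnear p.fst (ε / 2) (by positivity)
    obtain ⟨g, hg, hg'⟩ := fibre D h2 y hy0 hy1 (ε / 2) (by positivity) p.snd
    refine ⟨emb g, AddSubgroup.mem_map_of_mem _ hg, ?_⟩
    have h3 : p - emb g = WithLp.toLp 2 (p.fst - y, (0 : ℝ))
        + WithLp.toLp 2 (y - g.1, p.snd - (g.2 : ℝ)) := by
      have h4 : (WithLp.toLp 2 (p.fst - y, (0 : ℝ)) : WithLp 2 (L1 × ℝ))
        + WithLp.toLp 2 (y - g.1, p.snd - (g.2 : ℝ))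
        = WithLp.toLp 2 ((p.fst - y) + (y - g.1), (0 : ℝ) + (p.snd - (g.2 : ℝ))) := rfl
      rw [h4, sub_add_sub_cancel, zero_add]
      rfl
    rw [h3]
    refine (norm_add_le _ _).trans ?_
    have h5 : ‖(WithLp.toLp 2 (p.fst - y, (0 : ℝ)) : WithLp 2 (L1 × ℝ))‖ ≤ ε / 2 := by
      have h := WithLp.prod_norm_sq_eq_of_L2 (WithLp.toLp 2 (p.fst - y, (0 : ℝ)) :
        WithLp 2 (L1 × ℝ))
      have h6 : (WithLp.toLp 2 (p.fst - y, (0 : ℝ)) : WithLp 2 (L1 × ℝ)).fst = p.fst - y := rfl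
      have h7 : (WithLp.toLp 2 (p.fst - y, (0 : ℝ)) : WithLp 2 (L1 × ℝ)).snd = 0 := rfl
      rw [h6, h7, norm_zero] at h
      refine abs_le_of_sq_le_sq' ?_ (by positivity) |>.2
      nlinarith [norm_nonneg (p.fst - y)]
    have h6 : ‖(WithLp.toLp 2 (y - g.1, p.snd - (g.2 : ℝ)) : WithLp 2 (L1 × ℝ))‖
        ≤ 2 / √3 + ε / 2 := by
      have h := WithLp.prod_norm_sq_eq_of_L2 (WithLp.toLp 2 (y - g.1, p.snd - (g.2 : ℝ)) :
        WithLp 2 (L1 × ℝ))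
      have h6 : (WithLp.toLp 2 (y - g.1, p.snd - (g.2 : ℝ)) : WithLp 2 (L1 × ℝ)).fst
        = y - g.1 := rfl
      have h7 : (WithLp.toLp 2 (y - g.1, p.snd - (g.2 : ℝ)) : WithLp 2 (L1 × ℝ)).snd
        = p.snd - (g.2 : ℝ) := rfl
      rw [h6, h7, Real.norm_eq_abs, sq_abs] at h
      refine abs_le_of_sq_le_sq' ?_ (by positivity) |>.2
      rw [h]
      exact hg'
    linarith

end PackCover
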